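import Pool.Agent.V1213.TP.Core
import Pool.Agent.Y139.SM.Final

/-!
The tensor powers of the transcendental part: duality, arithmetic progressions of exponents, odd exponents,
moments.
-/

set_option autoImplicit false

namespace Pool.Agent.V69.TP

open Complex Filter Topology ComplexConjugate NumberField IsDedekindDomain Asymptotics
  Pool.Agent.W401.Cheb Pool.Agent.W540.BE Pool.Agent.W353.L1 Polynomial
open Pool.Agent.H341R2 (lam lam_tendsto)
open Pool.Agent.W353.TD (ch IsPart tF_sub_le rank)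
open Pool.Agent.W353.PV (tF)
open Pool.Agent.W353.EF (LFun)
open Pool.Agent.W353.EH (edgePoint size)
open Pool.Agent.W353.AT (tC abs_tC IsArtin exists_common tw_C IsTwistedSystem
  twistRank TwistDefect)
open Pool.Agent.Y139.SM
open Pool.Agent.V1213.TP (core pw)

section
variable {K : Type} [Field K] [NumberField K] {l : ℕ} {X : Set (MvPolynomial (Fin l) (𝓞 K))}
  {d m N : ℕ} {V : Type} [AddCommGroup V] [Module ℚ V] [FiniteDimensional ℚ V]
  {ρ : Representation ℚ (GK K) V}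

/-- the sizes, indexed: the excess of the pole for `j = 0` -/
noncomputable def xx (m : ℕ) (ρ : Representation ℚ (GK K) V) {n : ℕ}
    (χ : Representation ℂ (GK K) (Fin n → ℂ)) (e : ℕ → ℕ) (B : ℕ → HeightOneSpectrum (𝓞 K) → ℂ[X])
    (j : ℕ) (ε : ℝ) : ℝ :=
  if j = 0 then size (2 * m) 0 (B 0) ε - twistRank ρ χ else size (2 * (e j * m)) 0 (B j) ε

theorem dualE (hmd : m ≤ d) (hV : IsPart X d m N ρ) {n : ℕ}
    {χ : Representation ℂ (GK K) (Fin n → ℂ)} (hχ : IsArtin χ) (S : Finset ℕ) (e : ℕ → ℕ)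
    (he : e 0 = 1) (c : ℕ → ℝ) (B : ℕ → HeightOneSpectrum (𝓞 K) → ℂ[X])
    (hB0 : IsTwistedSystem X d (2 * m) N χ 0 (B 0))
    (hB : ∀ j ∈ S, j ≠ 0 → IsTensorSystem X d m N ρ (e j) χ (B j)) {b : ℝ} (hb0 : 0 ≤ b)
    (hb : ∀ t : ℝ, |t| ≤ (N - Module.finrank ℚ V : ℕ) → n * |∑ j ∈ S, c j * t ^ e j| ≤ b)
    {η : ℝ} (hη : 0 < η) :
    ∀ᶠ ε : ℝ in 𝓝[>] 0, |∑ j ∈ S, c j * xx m ρ χ e B j ε| ≤ b + η := by
  classical
  have hm : 2 * m ≤ 2 * d := by omega
  choose σ hσ using exists_isFrob (F := K)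
  have hgood := good_of_part hm hV hσ
  refine core (T := tC ρ X d (2 * m) N (N - Module.finrank ℚ V) σ) (Nat.cast_nonneg _)
    (fun v => abs_tC _ _ _ _ _ _ _ _) σ χ hχ S e c (fun j ε => xx m ρ χ e B j ε) ?_ hb0 hb hη
  intro j hj
  by_cases h : j = 0
  · subst h
    have h1 := (tw_C hm hσ hgood hV.1 ⟨n, χ⟩ hχ (B 0) hB0).2
    refine h1.congr fun ε => ?_
    simp only [he, pow_one, xx, if_true]
  · have h1 := (tensor_size hm hσ hgood (e j) χ hχ (B j) (hB j hj h)).2
    refine h1.congr fun ε => ?_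
    simp only [xx, if_neg h]

/-- **Duality.** -/
theorem dual (hmd : m ≤ d) (hV : IsPart X d m N ρ) {n : ℕ}
    {χ : Representation ℂ (GK K) (Fin n → ℂ)} (hχ : IsArtin χ)
    {B : HeightOneSpectrum (𝓞 K) → ℂ[X]} (hB : IsTwistedSystem X d (2 * m) N χ 0 B)
    (S : Finset ℕ) (hS : ∀ r ∈ S, 1 ≤ r) (c : ℕ → ℝ)
    (Br : ℕ → HeightOneSpectrum (𝓞 K) → ℂ[X])
    (hBr : ∀ r ∈ S, IsTensorSystem X d m N ρ r χ (Br r)) {b : ℝ} (hb0 : 0 ≤ b)
    (hb : ∀ t : ℝ, |t| ≤ (N - Module.finrank ℚ V : ℕ) → n * |t + ∑ r ∈ S, c r * t ^ r| ≤ b)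
    {η : ℝ} (hη : 0 < η) :
    ∀ᶠ ε : ℝ in 𝓝[>] 0, |(size (2 * m) 0 B ε - twistRank ρ χ) +
      ∑ r ∈ S, c r * size (2 * (r * m)) 0 (Br r) ε| ≤ b + η := by
  classical
  have h0S : 0 ∉ S := fun h => by have := hS 0 h; omega
  have hne : ∀ r ∈ S, r ≠ 0 := fun r hr => by have := hS r hr; omega
  have h := dualE hmd hV hχ (insert 0 S) (fun j => if j = 0 then 1 else j) (by simp)
    (fun j => if j = 0 then 1 else c j) (fun j => if j = 0 then B else Br j) (by simpa using hB)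
    (fun j hj hj0 => by
      simp only [if_neg hj0]
      exact hBr j (Finset.mem_of_mem_insert_of_ne hj hj0)) hb0
    (fun t ht => by
      rw [Finset.sum_insert h0S]
      simp only [if_true, one_mul, pow_one]
      have e : ∑ j ∈ S, (if j = 0 then (1 : ℝ) else c j) * t ^ (if j = 0 then 1 else j) =
          ∑ r ∈ S, c r * t ^ r :=
        Finset.sum_congr rfl fun r hr => by rw [if_neg (hne r hr), if_neg (hne r hr)]
      rw [e]
      exact hb t ht) hη
  filter_upwards [h] with ε hε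
  rw [Finset.sum_insert h0S] at hε
  have e : ∑ j ∈ S, (if j = 0 then (1 : ℝ) else c j) * xx m ρ χ (fun j => if j = 0 then 1 else j)
      (fun j => if j = 0 then B else Br j) j ε =
      ∑ r ∈ S, c r * size (2 * (r * m)) 0 (Br r) ε := by
    refine Finset.sum_congr rfl fun r hr => ?_
    simp only [xx, if_neg (hne r hr)]
  rw [e] at hε
  simpa [xx] using hε

/-- a trivial bound -/
theorem abs_defect_le (hmd : m ≤ d) (hV : IsPart X d m N ρ) {n : ℕ}
    {χ : Representation ℂ (GK K) (Fin n → ℂ)} (hχ : IsArtin χ) {δ : ℤ}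
    (hδ : TwistDefect X d m N ρ χ δ) : |(δ : ℝ)| ≤ n * (N - Module.finrank ℚ V : ℕ) := by
  obtain ⟨B, hB, hlim⟩ := hδ
  have h1 : Tendsto (fun ε => |size (2 * m) 0 B ε - twistRank ρ χ|) (𝓝[>] 0) (𝓝 |(δ : ℝ)|) := by
    have h2 := (hlim.sub_const (twistRank ρ χ : ℝ)).abs
    have e : |((twistRank ρ χ : ℝ) - δ) - twistRank ρ χ| = |(δ : ℝ)| := by
      rw [← abs_neg]
      congr 1
      ring
    rw [e] at h2
    exact h2
  refine le_of_forall_pos_le_add fun η hη => ?_
  have h := dual hmd hV hχ hB ∅ (by simp) (fun _ => 0) (fun _ => B) (by simp)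
    (b := n * (N - Module.finrank ℚ V : ℕ)) (by positivity)
    (fun t ht => by
      simp only [Finset.sum_empty, add_zero]
      exact mul_le_mul_of_nonneg_left ht (by positivity)) hη
  simp only [Finset.sum_empty, add_zero] at h
  exact le_of_tendsto h1 h

theorem int_zero {δ : ℤ} (h : |(δ : ℝ)| < 1) : δ = 0 := by
  rw [← Int.cast_abs] at h
  exact Int.abs_lt_one_iff.1 (by exact_mod_cast h)

/-- **Arithmetic progressions, effective.** -/
theorem prog_zero (hmd : m ≤ d) (hV : IsPart X d m N ρ) {n : ℕ}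
    {χ : Representation ℂ (GK K) (Fin n → ℂ)} (hχ : IsArtin χ) {q : ℕ} (hq : Even q) (hq1 : 1 ≤ q)
    (M : ℕ) (hM : (n * (N - Module.finrank ℚ V)) ^ q < q * M + 1)
    (h0 : ∀ j, 1 ≤ j → j ≤ M → TensorPole X d m N ρ (1 + q * j) χ 0) {δ : ℤ}
    (hδ : TwistDefect X d m N ρ χ δ) : δ = 0 := by
  classical
  set s : ℕ := N - Module.finrank ℚ V with hs
  rcases Nat.eq_zero_or_pos s with hs0 | hs0
  · have h1 := abs_defect_le hmd hV hχ hδ
    rw [← hs, hs0, Nat.cast_zero, mul_zero] at h1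
    exact int_zero (lt_of_le_of_lt h1 one_pos)
  · obtain ⟨B, hB, hlim⟩ := hδ
    have hex : ∀ j : ℕ, ∃ B' : HeightOneSpectrum (𝓞 K) → ℂ[X], 1 ≤ j → j ≤ M →
        IsTensorSystem X d m N ρ (1 + q * j) χ B' ∧
          Tendsto (size (2 * ((1 + q * j) * m)) 0 B') (𝓝[>] 0) (𝓝 0) := by
      intro j
      by_cases h : 1 ≤ j ∧ j ≤ M
      · obtain ⟨B', h1, h2⟩ := h0 j h.1 h.2
        exact ⟨B', fun _ _ => ⟨h1, by simpa using h2⟩⟩
      · exact ⟨B, fun h1 h2 => absurd ⟨h1, h2⟩ h⟩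
    choose B' hB' using hex
    have hN0 : (0 : ℝ) < s := by exact_mod_cast hs0
    have hq0 : q ≠ 0 := by omega
    set A : ℝ := (n * (s : ℝ)) ^ q / (q * M + 1 : ℝ) with hA
    have hA0 : 0 ≤ A := by positivity
    set b : ℝ := A ^ ((q : ℝ)⁻¹) with hb
    have hb0 : 0 ≤ b := Real.rpow_nonneg hA0 _
    have hbq : b ^ q = A := Real.rpow_inv_natCast_pow hA0 hq0
    have hbt : ∀ t : ℝ, |t| ≤ s → n * |∑ j ∈ Finset.range (M + 1),
        ((-1) ^ j * (M.choose j : ℝ) / (s : ℝ) ^ (q * j)) * t ^ (1 + q * j)| ≤ b := by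
      intro t ht
      rw [Pool.Agent.V1213.TP.expand]
      have h1 := pw (r := 1) (m := M) hq hN0 ht
      refine le_of_pow_le_pow_left₀ hq0 hb0 ?_
      rw [hbq, mul_pow, hA, mul_pow]
      calc (n : ℝ) ^ q * |t ^ 1 * (1 - (t / s) ^ q) ^ M| ^ q ≤
          (n : ℝ) ^ q * (((s : ℝ) ^ 1) ^ q / ((q * M / 1 : ℕ) + 1 : ℝ) ^ 1) :=
            mul_le_mul_of_nonneg_left h1 (by positivity)
        _ = _ := by
          rw [pow_one, pow_one, Nat.div_one, mul_div_assoc]
          push_cast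
          rfl
    have hA1 : A < 1 := by
      rw [hA, div_lt_one (by positivity)]
      exact_mod_cast hM
    have hb1 : b < 1 := by
      by_contra hcon
      have := one_le_pow₀ (n := q) (not_lt.1 hcon)
      rw [hbq] at this
      linarith
    set η : ℝ := (1 - b) / 2 with hη
    have hη0 : 0 < η := by rw [hη]; linarith
    have h1 := dualE hmd hV hχ (Finset.range (M + 1)) (fun j => 1 + q * j) (by simp)
      (fun j => (-1) ^ j * (M.choose j : ℝ) / (s : ℝ) ^ (q * j))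
      (fun j => if j = 0 then B else B' j) (by simpa using hB)
      (fun j hj hj0 => by
        rw [Finset.mem_range] at hj
        simp only [if_neg hj0]
        exact (hB' j (by omega) (by omega)).1) hb0 hbt hη0
    have h2 : Tendsto (fun ε => |∑ j ∈ Finset.range (M + 1),
        ((-1) ^ j * (M.choose j : ℝ) / (s : ℝ) ^ (q * j)) * xx m ρ χ (fun j => 1 + q * j)
          (fun j => if j = 0 then B else B' j) j ε|) (𝓝[>] 0) (𝓝 |∑ j ∈ Finset.range (M + 1),
        ((-1) ^ j * (M.choose j : ℝ) / (s : ℝ) ^ (q * j)) * (if j = 0 then -(δ : ℝ) else 0)|) := by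
      refine Tendsto.abs (tendsto_finsetSum _ fun j hj => Tendsto.const_mul _ ?_)
      rw [Finset.mem_range] at hj
      by_cases h : j = 0
      · subst h
        have h3 := hlim.sub_const (twistRank ρ χ : ℝ)
        have e : ((twistRank ρ χ : ℝ) - δ) - twistRank ρ χ = -(δ : ℝ) := by ring
        rw [e] at h3
        rw [if_pos rfl]
        refine h3.congr fun ε => ?_
        simp only [xx, if_true]
      · rw [if_neg h]
        refine (hB' j (by omega) (by omega)).2.congr fun ε => ?_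
        simp only [xx, if_neg h]
    have h3 : ∑ j ∈ Finset.range (M + 1),
        ((-1) ^ j * (M.choose j : ℝ) / (s : ℝ) ^ (q * j)) * (if j = 0 then -(δ : ℝ) else 0) =
        -(δ : ℝ) := by
      rw [Finset.sum_eq_single 0]
      · simp
      · intro j _ hj
        rw [if_neg hj, mul_zero]
      · intro h
        exact absurd (Finset.mem_range.2 (Nat.succ_pos M)) h
    rw [h3, abs_neg] at h2
    have h4 := le_of_tendsto h2 h1
    exact int_zero (by rw [hη] at h4; linarith)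

/-- **A defect propagates.** -/
theorem prog_infinite (hmd : m ≤ d) (hV : IsPart X d m N ρ) {n : ℕ}
    {χ : Representation ℂ (GK K) (Fin n → ℂ)} (hχ : IsArtin χ) {q : ℕ} (hq : Even q) (hq1 : 1 ≤ q)
    {δ : ℤ} (hδ0 : δ ≠ 0) (hδ : TwistDefect X d m N ρ χ δ) :
    {j : ℕ | 1 ≤ j ∧ ¬ TensorPole X d m N ρ (1 + q * j) χ 0}.Infinite := by
  classical
  intro hfin
  apply hδ0
  obtain ⟨J, hJ⟩ : ∃ J : ℕ, ∀ j : ℕ, J ≤ j → 1 ≤ j → TensorPole X d m N ρ (1 + q * j) χ 0 := by
    obtain ⟨b, hb⟩ := hfin.bddAbove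
    refine ⟨b + 1, fun j hj hj1 => ?_⟩
    by_contra hcon
    have := hb ⟨hj1, hcon⟩
    omega
  set Q : ℕ := q * (J + 1) with hQ
  have hQe : Even Q := hq.mul_right _
  have hQ1 : 1 ≤ Q := Nat.mul_pos hq1 (Nat.succ_pos J)
  refine prog_zero hmd hV hχ hQe hQ1 ((n * (N - Module.finrank ℚ V)) ^ Q) ?_ ?_ hδ
  · nlinarith [Nat.zero_le ((n * (N - Module.finrank ℚ V)) ^ Q)]
  · intro j hj _
    have h1 : J + 1 ≤ (J + 1) * j := by nlinarith
    have := hJ ((J + 1) * j) (by omega) (by omega)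
    rw [show 1 + q * ((J + 1) * j) = 1 + Q * j by rw [hQ]; ring] at this
    exact this

/-- **Odd tensor powers.** -/
theorem odd_zero (hmd : m ≤ d) (hV : IsPart X d m N ρ) {n : ℕ}
    {χ : Representation ℂ (GK K) (Fin n → ℂ)} (hχ : IsArtin χ) {R : ℕ} (hR : Odd R)
    (hlt : n * (N - Module.finrank ℚ V) < R)
    (h0 : ∀ r, Odd r → 3 ≤ r → r ≤ R → TensorPole X d m N ρ r χ 0) {δ : ℤ}
    (hδ : TwistDefect X d m N ρ χ δ) : δ = 0 := by
  classical
  set s : ℕ := N - Module.finrank ℚ V with hs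
  rcases Nat.eq_zero_or_pos s with hs0 | hs0
  · have h1 := abs_defect_le hmd hV hχ hδ
    rw [← hs, hs0, Nat.cast_zero, mul_zero] at h1
    exact int_zero (lt_of_le_of_lt h1 one_pos)
  · obtain ⟨B, hB, hlim⟩ := hδ
    have hex : ∀ r : ℕ, ∃ B' : HeightOneSpectrum (𝓞 K) → ℂ[X], Odd r → 3 ≤ r → r ≤ R →
        IsTensorSystem X d m N ρ r χ B' ∧
          Tendsto (size (2 * (r * m)) 0 B') (𝓝[>] 0) (𝓝 0) := by
      intro r
      by_cases h : Odd r ∧ 3 ≤ r ∧ r ≤ R
      · obtain ⟨B', h1, h2⟩ := h0 r h.1 h.2.1 h.2.2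
        exact ⟨B', fun _ _ _ => ⟨h1, by simpa using h2⟩⟩
      · exact ⟨B, fun h1 h2 h3 => absurd ⟨h1, h2, h3⟩ h⟩
    choose B' hB' using hex
    have hm : 2 * m ≤ 2 * d := by omega
    choose σ hσ using exists_isFrob (F := K)
    have hgood := good_of_part hm hV hσ
    have hs1 : (0 : ℝ) < s := by exact_mod_cast hs0
    have hR0 : (0 : ℝ) < R := by exact_mod_cast hR.pos
    set x : ℕ → ℝ → ℝ := fun r ε => if r = 1 then size (2 * m) 0 B ε - twistRank ρ χ else
      size (2 * (r * m)) 0 (B' r) ε with hx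
    have hineq : ∀ η : ℝ, 0 < η → ∀ᶠ ε : ℝ in 𝓝[>] 0,
        |x 1 ε + ∑ r ∈ Finset.range (R + 1) with Odd r ∧ 3 ≤ r, chebC s R r * x r ε| ≤
          n * ((s : ℝ) / R) + η := by
      intro η hη
      refine odd_powers (T := tC ρ X d (2 * m) N s σ) hs1 (fun v => abs_tC _ _ _ _ _ _ _ _) σ χ hχ
        hR x ?_ hη
      intro r hr hrR
      by_cases h : r = 1
      · subst h
        have h1 := (tw_C hm hσ hgood hV.1 ⟨n, χ⟩ hχ B hB).2
        refine h1.congr fun ε => ?_
        simp only [hx, pow_one, if_true]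
        rfl
      · have h3 : 3 ≤ r := by
          obtain ⟨k, hk⟩ := hr
          omega
        have h1 := (tensor_size hm hσ hgood r χ hχ (B' r) (hB' r hr h3 hrR).1).2
        refine h1.congr fun ε => ?_
        simp only [hx, if_neg h]
        rfl
    have hx1 : Tendsto (x 1) (𝓝[>] 0) (𝓝 (-(δ : ℝ))) := by
      have h3 := hlim.sub_const (twistRank ρ χ : ℝ)
      have e : ((twistRank ρ χ : ℝ) - δ) - twistRank ρ χ = -(δ : ℝ) := by ring
      rw [e] at h3
      refine h3.congr fun ε => ?_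
      simp only [hx, if_true]
    have hx2 : Tendsto (fun ε => ∑ r ∈ Finset.range (R + 1) with Odd r ∧ 3 ≤ r,
        chebC s R r * x r ε) (𝓝[>] 0) (𝓝 0) := by
      have h3 := tendsto_finsetSum (f := fun r ε => chebC s R r * x r ε)
        (a := fun r => chebC s R r * 0) ((Finset.range (R + 1)).filter fun r => Odd r ∧ 3 ≤ r)
        fun r hr => by
          rw [Finset.mem_filter, Finset.mem_range] at hr
          have h4 := (hB' r hr.2.1 hr.2.2 (by omega)).2
          refine Tendsto.const_mul _ (h4.congr fun ε => ?_)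
          have : r ≠ 1 := by omega
          simp only [hx, if_neg this]
      simpa using h3
    have h5 := (hx1.add hx2).abs
    rw [add_zero, abs_neg] at h5
    have hc : (n : ℝ) * ((s : ℝ) / R) < 1 := by
      rw [← mul_div_assoc, div_lt_one hR0]
      exact_mod_cast hlt
    have h6 : |(δ : ℝ)| ≤ n * ((s : ℝ) / R) + (1 - n * ((s : ℝ) / R)) / 2 :=
      le_of_tendsto h5 (hineq _ (by linarith))
    exact int_zero (by linarith)

/-- **Moments.** -/
theorem moments (hmd : m ≤ d) (hV : IsPart X d m N ρ) (R : ℕ) (y : ℕ → ℝ)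
    (hy : ∀ r, 2 ≤ r → r ≤ R → ∃ B : HeightOneSpectrum (𝓞 K) → ℂ[X],
      IsTensorSystem X d m N ρ r (1 : Representation ℂ (GK K) (Fin 1 → ℂ)) B ∧
        Tendsto (size (2 * (r * m)) 0 B) (𝓝[>] 0) (𝓝 (y r))) {δ : ℤ}
    (hδ : TwistDefect X d m N ρ (1 : Representation ℂ (GK K) (Fin 1 → ℂ)) δ) (P : ℝ[X])
    (hP : P.natDegree ≤ R)
    (hpos : ∀ t : ℝ, |t| ≤ (N - Module.finrank ℚ V : ℕ) → 0 ≤ P.eval t) :
    0 ≤ P.coeff 0 - P.coeff 1 * δ + ∑ r ∈ Finset.Icc 2 R, P.coeff r * y r := by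
  classical
  set s : ℕ := N - Module.finrank ℚ V with hs
  obtain ⟨B, hB, hlim⟩ := hδ
  have hex : ∀ r : ℕ, ∃ B' : HeightOneSpectrum (𝓞 K) → ℂ[X], 2 ≤ r → r ≤ R →
      IsTensorSystem X d m N ρ r (1 : Representation ℂ (GK K) (Fin 1 → ℂ)) B' ∧
        Tendsto (size (2 * (r * m)) 0 B') (𝓝[>] 0) (𝓝 (y r)) := by
    intro r
    by_cases h : 2 ≤ r ∧ r ≤ R
    · obtain ⟨B', h1, h2⟩ := hy r h.1 h.2
      exact ⟨B', fun _ _ => ⟨h1, h2⟩⟩
    · exact ⟨B, fun h1 h2 => absurd ⟨h1, h2⟩ h⟩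
  choose B' hB' using hex
  have hm : 2 * m ≤ 2 * d := by omega
  choose σ hσ using exists_isFrob (F := K)
  have hgood := good_of_part hm hV hσ
  have hRR : ∀ v, RR (1 : Representation ℂ (GK K) (Fin 1 → ℂ)) 0 σ v = 1 := RR_one σ
  set R' : ℕ := R + 1 with hR'
  set x : Fin (R' + 1) → ℝ → ℝ := fun r ε => if (r : ℕ) = 0 then 1 else
    if (r : ℕ) = 1 then size (2 * m) 0 B ε -
      twistRank ρ (1 : Representation ℂ (GK K) (Fin 1 → ℂ)) else
    if (r : ℕ) ≤ R then size (2 * ((r : ℕ) * m)) 0 (B' r) ε else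
      (EP (nm K) ε fun v => (tC ρ X d (2 * m) N s σ v) ^ (r : ℕ) *
        RR (1 : Representation ℂ (GK K) (Fin 1 → ℂ)) 0 σ v) / lam ε with hx
  have hxl : ∀ r : Fin (R' + 1), Tendsto (fun ε : ℝ =>
      (EP (nm K) ε fun v => (tC ρ X d (2 * m) N s σ v) ^ (r : ℕ) *
        RR (1 : Representation ℂ (GK K) (Fin 1 → ℂ)) 0 σ v) / lam ε - x r ε) (𝓝[>] 0) (𝓝 0) := by
    intro r
    by_cases h0 : (r : ℕ) = 0
    · have h1 : ∀ ε, x r ε = 1 := fun ε => by simp only [hx, h0, if_true]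
      simp only [h1, h0, pow_zero, hRR, mul_one]
      have := (EP_one K).sub_const 1
      rwa [sub_self] at this
    by_cases h1 : (r : ℕ) = 1
    · have h2 := (tw_C hm hσ hgood hV.1 ⟨1, _⟩ one_artin B hB).2
      refine h2.congr fun ε => ?_
      simp only [hx, h1, pow_one, if_true]
      rfl
    by_cases h2 : (r : ℕ) ≤ R
    · have h3 := (tensor_size hm hσ hgood r _ one_artin (B' r) (hB' r (by omega) h2).1).2
      refine h3.congr fun ε => ?_
      simp only [hx, if_neg h0, if_neg h1, if_pos h2]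
      rfl
    · simp only [hx, if_neg h0, if_neg h1, if_neg h2, sub_self]
      exact tendsto_const_nhds
  have hcoef : ∀ r : ℕ, R < r → P.coeff r = 0 := fun r hr =>
    coeff_eq_zero_of_natDegree_lt (lt_of_le_of_lt hP hr)
  have hev : ∀ η : ℝ, 0 < η → ∀ᶠ ε : ℝ in 𝓝[>] 0, -η ≤ ∑ r : Fin (R' + 1), P.coeff r * x r ε := by
    intro η hη
    refine lin_pos (T := tC ρ X d (2 * m) N s σ) (Nat.cast_nonneg s)
      (fun v => abs_tC _ _ _ _ _ _ _ _) σ (fun r : Fin (R' + 1) => (r : ℕ)) (fun _ => 1)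
      (fun _ => 1) (fun _ => one_artin) x hxl (fun r => P.coeff r) ?_ hη
    intro t ht g
    have h1 : ((1 : Representation ℂ (GK K) (Fin 1 → ℂ)).character g).re = 1 := by
      have : (1 : Representation ℂ (GK K) (Fin 1 → ℂ)).character g = 1 := by
        unfold Representation.character
        simp
      rw [this]; simp
    have h2 : ∑ r : Fin (R' + 1), P.coeff r * (t ^ (r : ℕ) *
        ((1 : Representation ℂ (GK K) (Fin 1 → ℂ)).character g).re) = P.eval t := by
      rw [eval_eq_sum_range' (n := R' + 1) (by omega),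
        ← Fin.sum_univ_eq_sum_range (fun r => P.coeff r * t ^ r)]
      refine Finset.sum_congr rfl fun r _ => ?_
      rw [h1, mul_one]
    rw [h2]
    exact hpos t ht
  have hx1 : Tendsto (fun ε => ∑ r : Fin (R' + 1), P.coeff r * x r ε) (𝓝[>] 0)
      (𝓝 (∑ r : Fin (R' + 1), P.coeff r * (if (r : ℕ) = 0 then 1 else
        if (r : ℕ) = 1 then -(δ : ℝ) else y r))) := by
    refine tendsto_finsetSum _ fun r _ => ?_
    by_cases h0 : (r : ℕ) = 0
    · have h1 : x r = fun _ => 1 := by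
        funext ε
        simp only [hx, h0, if_true]
      rw [h1, if_pos h0]
      exact tendsto_const_nhds
    by_cases h1 : (r : ℕ) = 1
    · rw [if_neg h0, if_pos h1]
      refine Tendsto.const_mul _ ?_
      have h3 := hlim.sub_const (twistRank ρ (1 : Representation ℂ (GK K) (Fin 1 → ℂ)) : ℝ)
      have e : ((twistRank ρ (1 : Representation ℂ (GK K) (Fin 1 → ℂ)) : ℝ) - δ) -
          twistRank ρ (1 : Representation ℂ (GK K) (Fin 1 → ℂ)) = -(δ : ℝ) := by ring
      rw [e] at h3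
      refine h3.congr fun ε => ?_
      simp only [hx, if_neg h0, if_pos h1]
    by_cases h2 : (r : ℕ) ≤ R
    · rw [if_neg h0, if_neg h1]
      refine Tendsto.const_mul _ ?_
      refine (hB' r (by omega) h2).2.congr fun ε => ?_
      simp only [hx, if_neg h0, if_neg h1, if_pos h2]
    · rw [hcoef r (by omega)]
      simp only [zero_mul]
      exact tendsto_const_nhds
  have h3 : 0 ≤ ∑ r : Fin (R' + 1), P.coeff r * (if (r : ℕ) = 0 then 1 else
      if (r : ℕ) = 1 then -(δ : ℝ) else y r) := by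
    refine le_of_forall_pos_le_add fun η hη => ?_
    have := ge_of_tendsto hx1 (hev η hη)
    linarith
  refine h3.trans (le_of_eq ?_)
  rw [Fin.sum_univ_eq_sum_range (fun r => P.coeff r * (if r = 0 then 1 else
      if r = 1 then -(δ : ℝ) else y r)), hR', Finset.sum_range_succ', Finset.sum_range_succ']
  simp only [if_true, mul_one, Nat.succ_ne_zero, if_false, zero_add, one_ne_zero,
    Nat.add_eq_right]
  have h5 : ∑ r ∈ Finset.Icc 2 R, P.coeff r * y r =
      ∑ r ∈ Finset.range R, P.coeff (r + 1 + 1) * y (r + 1 + 1) := by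
    have h6 : ∑ r ∈ Finset.range R, P.coeff (r + 1 + 1) * y (r + 1 + 1) =
        ∑ r ∈ Finset.Icc 2 (R + 1), P.coeff r * y r := by
      rw [Finset.sum_bij (fun (r : ℕ) (_ : r ∈ Finset.range R) => r + 1 + 1)]
      · intro r hr
        rw [Finset.mem_range] at hr
        rw [Finset.mem_Icc]; omega
      · intro a _ b _ hab
        omega
      · intro b hb
        rw [Finset.mem_Icc] at hb
        exact ⟨b - 2, by rw [Finset.mem_range]; omega, by omega⟩
      · intro a _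
        rfl
    rw [h6]
    by_cases hR2 : 2 ≤ R + 1
    · rw [Finset.sum_Icc_succ_top hR2, hcoef (R + 1) (by omega), zero_mul, add_zero]
    · rw [Finset.Icc_eq_empty (by omega), Finset.Icc_eq_empty (by omega)]
  rw [h5]
  ring_nf

end

end Pool.Agent.V69.TP
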